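import Pool.Agent.Helper40.Nm.Goals

/-!
Base change of the group algebra.
-/

open TensorProduct

namespace Pool.Agent.Helper37.Nm

open Pool.Agent.Helper40.Nm

/-- base change of a group algebra, as a bialgebra isomorphism -/
noncomputable def baseEquiv (L E M : Type) [Field L] [Field E] [Algebra L E] [CommMonoid M] :
    E ⊗[L] MonoidAlgebra L M ≃ₐc[E] MonoidAlgebra E M :=
  (BialgEquiv.ofAlgEquiv (MonoidAlgebra.scalarTensorEquiv L E (M := M)).symm (by
    ext m
    simp) (by
    ext m
    simp)).symm

theorem bch2 : BCH2 := by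
  intro L E _ _ _ A _ _ g ⟨Ψ⟩
  refine ⟨(BialgEquiv.ofBialgHom
    (Bialgebra.TensorProduct.map (BialgHom.id E E) (Ψ : A →ₐc[L] _))
    (Bialgebra.TensorProduct.map (BialgHom.id E E) (Ψ.symm : _ →ₐc[L] A)) ?_ ?_).trans
    (baseEquiv L E (Multiplicative (Lat g)))⟩
  · ext x
    induction x using TensorProduct.induction_on with
    | zero => simp
    | tmul e b => simp
    | add x y hx hy => rw [map_add, map_add, hx, hy]
  · ext x
    induction x using TensorProduct.induction_on with
    | zero => simp
    | tmul e b => simp
    | add x y hx hy => rw [map_add, map_add, hx, hy]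

end Pool.Agent.Helper37.Nm
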