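import Pool.Agent.Helper40.Nm.Goals

/-!
The criterion for an element of the dual lattice to lie in the augmentation submodule.
-/

namespace Pool.Agent.Helper37.Nm

open Pool.Agent.Helper40.Nm

/-- the map whose range is the augmentation submodule -/
noncomputable def Phi {G : Type} [Group G] [Fintype G] {g : ℕ} (act : G →* AddMonoid.End (Lat g)) :
    (G → (Lat g →+ ℤ)) →+ (Lat g →+ ℤ) where
  toFun y := ∑ γ, ((y γ).comp (act γ⁻¹ : Lat g →+ Lat g) - y γ)
  map_zero' := by
    refine Finset.sum_eq_zero fun γ _ => DFunLike.ext _ _ fun x => ?_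
    show (0 : Lat g →+ ℤ) _ - (0 : Lat g →+ ℤ) _ = 0
    simp
  map_add' := by
    intro y y'
    rw [← Finset.sum_add_distrib]
    refine Finset.sum_congr rfl fun γ _ => DFunLike.ext _ _ fun x => ?_
    show (y γ (act γ⁻¹ x) + y' γ (act γ⁻¹ x)) - (y γ x + y' γ x) =
      (y γ (act γ⁻¹ x) - y γ x) + (y' γ (act γ⁻¹ x) - y' γ x)
    ring

theorem Phi_apply {G : Type} [Group G] [Fintype G] {g : ℕ} (act : G →* AddMonoid.End (Lat g))
    (y : G → (Lat g →+ ℤ)) (x : Lat g) :
    Phi act y x = ∑ γ, (y γ (act γ⁻¹ x) - y γ x) := by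
  show (∑ γ, ((y γ).comp (act γ⁻¹ : Lat g →+ Lat g) - y γ)) x = _
  rw [AddMonoidHom.finsetSum_apply]
  rfl

theorem lat : LAT := by
  intro G _ _ g act z hz
  classical
  by_contra hcon
  have hz' : z ∉ (Phi act).range := by
    rintro ⟨y, hy⟩
    exact hcon ⟨y, fun x => by rw [← hy, Phi_apply]⟩
  have hne : (QuotientAddGroup.mk z : (Lat g →+ ℤ) ⧸ (Phi act).range) ≠ 0 := by
    intro h
    exact hz' ((QuotientAddGroup.eq_zero_iff z).mp h)
  obtain ⟨c, hc⟩ := CharacterModule.exists_character_apply_ne_zero_of_ne_zero hne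
  set e : Fin g → (Lat g →+ ℤ) := fun i => Pi.evalAddMonoidHom (fun _ => ℤ) i with he
  have hlift : ∀ i, ∃ q : ℚ, (q : AddCircle (1 : ℚ)) = c (QuotientAddGroup.mk (e i)) :=
    fun i => QuotientAddGroup.mk_surjective _
  choose q hq using hlift
  set a : ℕ := ∏ i, (q i).den with ha
  have ha0 : 0 < a := Finset.prod_pos fun i _ => (q i).den_pos
  have hχ : ∀ i, ∃ n : ℤ, (n : ℚ) = a * q i := by
    intro i
    obtain ⟨b, hb⟩ : (q i).den ∣ a := Finset.dvd_prod_of_mem _ (Finset.mem_univ i)
    refine ⟨b * (q i).num, ?_⟩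
    rw [hb]
    push_cast
    have h1 := Rat.den_mul_eq_num (q i)
    rw [← h1]
    ring
  choose χ hχ using hχ
  have hdec : ∀ y : Lat g →+ ℤ, y = ∑ i, y (Pi.single i 1) • e i := by
    intro y
    ext i
    simp only [AddMonoidHom.coe_comp, Function.comp_apply, AddMonoidHom.single_apply,
      AddMonoidHom.finsetSum_apply, AddMonoidHom.smul_apply, he, Pi.evalAddMonoidHom_apply,
      smul_eq_mul]
    rw [Finset.sum_eq_single i]
    · simp
    · intro j _ hj
      rw [Pi.single_eq_of_ne hj]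
      simp
    · intro h
      exact absurd (Finset.mem_univ i) h
  have key : ∀ y : Lat g →+ ℤ, c (QuotientAddGroup.mk y) = 0 ↔ (a : ℤ) ∣ y χ := by
    intro y
    have h1 : c (QuotientAddGroup.mk y) = ((∑ i, (y (Pi.single i 1) : ℚ) * q i : ℚ) :
        AddCircle (1 : ℚ)) := by
      conv_lhs => rw [hdec y]
      have h2 : (QuotientAddGroup.mk (∑ i, y (Pi.single i 1) • e i) :
          (Lat g →+ ℤ) ⧸ (Phi act).range) =
          ∑ i, y (Pi.single i 1) • (QuotientAddGroup.mk (e i)) := by
        rw [← QuotientAddGroup.mk'_apply, map_sum]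
        rfl
      rw [h2, map_sum]
      rw [← QuotientAddGroup.mk'_apply (N := AddSubgroup.zmultiples (1 : ℚ)), map_sum]
      refine Finset.sum_congr rfl fun i _ => ?_
      rw [map_zsmul, ← hq i, ← zsmul_eq_mul, map_zsmul]
      rfl
    have h3 : y χ = ∑ i, y (Pi.single i 1) * χ i := by
      conv_lhs => rw [hdec y]
      simp [he]
    have h4 : (∑ i, (y (Pi.single i 1) : ℚ) * q i : ℚ) = (y χ : ℚ) / a := by
      rw [eq_div_iff (by positivity), h3]
      push_cast
      rw [Finset.sum_mul]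
      refine Finset.sum_congr rfl fun i _ => ?_
      rw [hχ i]
      ring
    rw [h1, h4, AddCircle.coe_eq_zero_iff]
    constructor
    · rintro ⟨n, hn⟩
      refine ⟨n, ?_⟩
      rw [eq_div_iff (by positivity)] at hn
      have : ((a * n : ℤ) : ℚ) = (y χ : ℚ) := by
        push_cast
        rw [← hn]
        simp
        ring
      exact_mod_cast this.symm
    · rintro ⟨n, hn⟩
      refine ⟨n, ?_⟩
      rw [hn, eq_div_iff (by positivity)]
      push_cast
      simp
      ring
  apply hc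
  rw [key]
  refine hz χ a ha0 ?_
  intro γ
  have h5 : ∀ i, ∃ n : ℤ, act γ χ i = χ i + a * n := by
    intro i
    have h6 : Phi act (Pi.single γ⁻¹ (e i)) = (e i).comp (act γ : Lat g →+ Lat g) - e i := by
      refine DFunLike.ext _ _ fun x => ?_
      rw [Phi_apply, Finset.sum_eq_single γ⁻¹]
      · rw [Pi.single_eq_same, inv_inv]
        rfl
      · intro γ' _ hne
        rw [Pi.single_eq_of_ne hne]
        simp
      · intro h
        exact absurd (Finset.mem_univ _) h
    have h7 : c (QuotientAddGroup.mk ((e i).comp (act γ : Lat g →+ Lat g) - e i)) = 0 := by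
      have h9 : (QuotientAddGroup.mk (Phi act (Pi.single γ⁻¹ (e i))) :
          (Lat g →+ ℤ) ⧸ (Phi act).range) = 0 := (QuotientAddGroup.eq_zero_iff _).mpr ⟨_, rfl⟩
      rw [← h6, h9, map_zero]
    rw [key] at h7
    obtain ⟨n, hn⟩ := h7
    refine ⟨n, ?_⟩
    have h8 : ((e i).comp (act γ : Lat g →+ Lat g) - e i) χ = act γ χ i - χ i := rfl
    rw [h8] at hn
    omega
  choose η hη using h5
  refine ⟨η, ?_⟩
  funext i
  rw [hη i]
  simp

end Pool.Agent.Helper37.Nm
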