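import Pool.Agent.Helper40.Nm.Goals

/-!
Finite groups of integral matrices (Minkowski).
-/

namespace Pool.Agent.Helper37.Nm

open Pool.Agent.Helper40.Nm

variable {g : ℕ}

/-- the matrix of an endomorphism -/
noncomputable def mat (A : AddMonoid.End (Lat g)) : Matrix (Fin g) (Fin g) ℤ :=
  LinearMap.toMatrix' (A : Lat g →+ Lat g).toIntLinearMap

theorem mat_mul (A B : AddMonoid.End (Lat g)) : mat (A * B) = mat A * mat B := by
  unfold mat
  rw [← LinearMap.toMatrix'_comp]
  rfl

theorem mat_one : mat (1 : AddMonoid.End (Lat g)) = 1 := by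
  unfold mat
  rw [← LinearMap.toMatrix'_id]
  rfl

theorem mat_injective : Function.Injective (mat : AddMonoid.End (Lat g) → _) := by
  intro A B h
  unfold mat at h
  have h1 := LinearMap.toMatrix'.injective h
  exact AddMonoidHom.toIntLinearMap_injective h1

theorem cube {R : Type} [Ring R] (N : R) :
    (1 + N) ^ 3 = 1 + ((3 : ℤ) • N + (3 : ℤ) • N ^ 2 + N ^ 3) := by
  noncomm_ring

/-- An integral matrix congruent to `1` modulo `3` of prime order. -/
theorem step {A B : Matrix (Fin g) (Fin g) ℤ} {q k : ℕ} (hq : q.Prime) (hk : 1 ≤ k)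
    (hA : A = 1 + (3 ^ k : ℤ) • B) (hAq : A ^ q = 1) : ∃ C : Matrix (Fin g) (Fin g) ℤ,
      A = 1 + (3 ^ (k + 1) : ℤ) • C := by
  have hcomm : Commute ((3 ^ k : ℤ) • B) 1 := Commute.one_right _
  by_cases h3 : q = 3
  · subst h3
    have h1 : (3 : ℤ) • ((3 ^ k : ℤ) • B) + (3 : ℤ) • ((3 ^ k : ℤ) • B) ^ 2
        + ((3 ^ k : ℤ) • B) ^ 3 = 0 := by
      have h2 := cube ((3 ^ k : ℤ) • B)
      rw [← hA, hAq] at h2
      exact left_eq_add.mp h2
    -- B = -3 * (...)
    obtain ⟨j, rfl⟩ : ∃ j, k = j + 1 := ⟨k - 1, by omega⟩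
    have h2 : (3 ^ (j + 2) : ℤ) • (B + (3 : ℤ) • ((3 ^ j : ℤ) • B ^ 2 + (3 ^ (2 * j) : ℤ) • B ^ 3))
        = 0 := by
      rw [← h1]
      simp only [smul_pow, smul_smul, smul_add]
      rw [← add_assoc]
      congr 1
      · congr 1
        · congr 1
          ring
        · congr 1
          ring
      · congr 1
        ring
    have h4 := (smul_eq_zero.mp h2).resolve_left (by positivity)
    refine ⟨-((3 ^ j : ℤ) • B ^ 2 + (3 ^ (2 * j) : ℤ) • B ^ 3), ?_⟩
    rw [hA]
    have h5 : B = (3 : ℤ) • (-((3 ^ j : ℤ) • B ^ 2 + (3 ^ (2 * j) : ℤ) • B ^ 3)) := by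
      rw [smul_neg]
      exact eq_neg_of_add_eq_zero_left h4
    conv_lhs => rw [h5]
    rw [smul_smul, ← pow_succ]
  · -- q invertible modulo 3
    obtain ⟨C, hC⟩ : ∃ C : Matrix (Fin g) (Fin g) ℤ,
        (1 + (3 ^ k : ℤ) • B) ^ q = 1 + (q : ℤ) • ((3 ^ k : ℤ) • B)
          + (3 ^ (2 * k) : ℤ) • C := by
      clear hAq hA hq h3
      induction q with
      | zero => exact ⟨0, by simp⟩
      | succ q ih =>
        obtain ⟨C, hC⟩ := ih
        refine ⟨C * (1 + (3 ^ k : ℤ) • B) + (q : ℤ) • B ^ 2, ?_⟩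
        rw [pow_succ, hC]
        simp only [mul_add, add_mul, smul_add, smul_mul_smul_comm, mul_one, one_mul, smul_mul_assoc,
          mul_smul_comm, smul_smul]
        push_cast
        simp only [add_smul, one_smul, add_mul, one_mul]
        rw [← pow_two B]
        have e1 : (3 : ℤ) ^ (2 * k) = 3 ^ k * 3 ^ k := by rw [two_mul, pow_add]
        rw [e1]
        have e2 : (3 : ℤ) ^ k * (q * 3 ^ k) = 3 ^ k * 3 ^ k * q := by ring
        have e3 : (3 : ℤ) ^ k * (3 ^ k * 3 ^ k) = 3 ^ k * 3 ^ k * 3 ^ k := by ring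
        rw [e2, e3]
        abel
    rw [← hA, hAq] at hC
    have h6 : (3 ^ k : ℤ) • ((q : ℤ) • B + (3 ^ k : ℤ) • C) = 0 := by
      rw [add_assoc] at hC
      have h4 := (left_eq_add.mp hC)
      rw [← h4, smul_add, smul_smul, smul_smul, smul_smul]
      congr 2
      · ring
      · rw [two_mul, pow_add]
    have h7 := (smul_eq_zero.mp h6).resolve_left (by positivity)
    -- Bezout
    have hcop : IsCoprime (q : ℤ) 3 := by
      rw [show (3 : ℤ) = ((3 : ℕ) : ℤ) from rfl, Nat.isCoprime_iff_coprime]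
      exact (Nat.coprime_primes hq Nat.prime_three).mpr h3
    obtain ⟨a, b, hab⟩ := hcop
    obtain ⟨j, rfl⟩ : ∃ j, k = j + 1 := ⟨k - 1, by omega⟩
    refine ⟨b • B - (a * 3 ^ j) • C, ?_⟩
    rw [hA]
    have h5 : B = (3 : ℤ) • (b • B - (a * 3 ^ j) • C) := by
      have h8 : B = (a * q + b * 3) • B := by rw [hab, one_smul]
      conv_lhs => rw [h8]
      have h9 : (q : ℤ) • B = -((3 ^ (j + 1) : ℤ) • C) := eq_neg_of_add_eq_zero_left h7
      rw [add_smul, mul_smul, h9, smul_sub, smul_neg, smul_smul, smul_smul, smul_smul]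
      rw [neg_add_eq_sub]
      congr 2
      · ring
      · ring
    conv_lhs => rw [h5]
    rw [smul_smul, ← pow_succ]

theorem eq_one_of_cong {A : Matrix (Fin g) (Fin g) ℤ} {q : ℕ} (hq : q.Prime)
    (hA : ∃ B : Matrix (Fin g) (Fin g) ℤ, A = 1 + (3 : ℤ) • B) (hAq : A ^ q = 1) : A = 1 := by
  have key : ∀ k : ℕ, ∃ B : Matrix (Fin g) (Fin g) ℤ, A = 1 + (3 ^ (k + 1) : ℤ) • B := by
    intro k
    induction k with
    | zero => simpa using hA
    | succ k ih =>
      obtain ⟨B, hB⟩ := ih
      exact step hq (by omega) hB hAq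
  ext i j
  by_contra hne
  have hne' : A i j - (1 : Matrix (Fin g) (Fin g) ℤ) i j ≠ 0 := sub_ne_zero.mpr hne
  have hdvd : ∀ k : ℕ, (3 ^ k : ℤ) ∣ A i j - (1 : Matrix (Fin g) (Fin g) ℤ) i j := by
    intro k
    obtain ⟨B, hB⟩ := key k
    refine ⟨3 * B i j, ?_⟩
    rw [hB, Matrix.add_apply, Matrix.smul_apply, smul_eq_mul, pow_succ]
    ring
  have h1 := hdvd (A i j - (1 : Matrix (Fin g) (Fin g) ℤ) i j).natAbs
  have h2 := Int.natAbs_dvd_natAbs.mpr h1
  have h3 := Nat.le_of_dvd (Int.natAbs_pos.mpr hne') h2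
  rw [Int.natAbs_pow] at h3
  exact absurd h3 (not_le.mpr (Nat.lt_pow_self (by norm_num)))

theorem mink : MINK := by
  intro G _ _ g act hinj
  classical
  -- reduction modulo 3
  let f : G →* Matrix (Fin g) (Fin g) (ZMod 3) :=
    { toFun := fun γ => (mat (act γ)).map (Int.castRingHom (ZMod 3))
      map_one' := by
        rw [map_one, mat_one]
        exact Matrix.map_one _ (map_zero _) (map_one _)
      map_mul' := by
        intro γ γ'
        rw [map_mul, mat_mul, Matrix.map_mul] }
  have hf : Function.Injective f := by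
    have hker : ∀ δ, f δ = 1 → δ = 1 := by
      intro δ hδ
      by_contra hne
      obtain ⟨q, hq, hqd⟩ := Nat.exists_prime_and_dvd (fun h => hne (orderOf_eq_one_iff.mp h))
      obtain ⟨m, hm⟩ := hqd
      have hpos : 0 < orderOf δ := orderOf_pos δ
      have h1 : δ ^ m ≠ 1 := by
        intro h
        have h2 := orderOf_dvd_of_pow_eq_one h
        have h3 := Nat.le_of_dvd (by
          rcases Nat.eq_zero_or_pos m with h4 | h4
          · rw [h4, mul_zero] at hm
            omega
          · exact h4) h2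
        have h5 := hq.two_le
        rw [hm] at h3 hpos
        have : 0 < m := by
          rcases Nat.eq_zero_or_pos m with h4 | h4
          · rw [h4, mul_zero] at hpos
            omega
          · exact h4
        nlinarith
      apply h1
      have h2 : (δ ^ m) ^ q = 1 := by
        rw [← pow_mul, mul_comm m q, ← hm, pow_orderOf_eq_one]
      have h3 : f (δ ^ m) = 1 := by rw [map_pow, hδ, one_pow]
      have hmatpow : ∀ (ε : G) (n : ℕ), mat (act (ε ^ n)) = mat (act ε) ^ n := by
        intro ε n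
        induction n with
        | zero => rw [pow_zero, map_one, mat_one, pow_zero]
        | succ n ih => rw [pow_succ, map_mul, mat_mul, ih, pow_succ]
      have h4 : mat (act (δ ^ m)) = 1 := by
        refine eq_one_of_cong hq ?_ ?_
        · have h5 : ∀ i j, ∃ b : ℤ, mat (act (δ ^ m)) i j
              = (1 : Matrix (Fin g) (Fin g) ℤ) i j + 3 * b := by
            intro i j
            have h6 := congrFun (congrFun h3 i) j
            have h7 : f (δ ^ m) i j = ((mat (act (δ ^ m)) i j : ℤ) : ZMod 3) := rfl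
            have h8 : (1 : Matrix (Fin g) (Fin g) (ZMod 3)) i j
                = (((1 : Matrix (Fin g) (Fin g) ℤ) i j : ℤ) : ZMod 3) := by
              rw [Matrix.one_apply, Matrix.one_apply]
              split_ifs <;> simp
            rw [h7, h8, ZMod.intCast_eq_intCast_iff_dvd_sub] at h6
            obtain ⟨b, hb⟩ := h6
            refine ⟨-b, ?_⟩
            push_cast at hb
            linarith
          choose b hb using h5
          refine ⟨b, ?_⟩
          ext i j
          rw [hb i j]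
          rfl
        · rw [← hmatpow, h2, map_one, mat_one]
      apply hinj
      apply mat_injective
      rw [h4, map_one, mat_one]
    intro a b hab
    have h1 : f (a⁻¹ * b) = 1 := by
      rw [map_mul, ← hab, ← map_mul, inv_mul_cancel, map_one]
    have h2 := hker _ h1
    exact inv_mul_eq_one.mp h2
  have h1 := Nat.card_le_card_of_injective f hf
  refine h1.trans (le_of_eq ?_)
  have h2 : Nat.card (Matrix (Fin g) (Fin g) (ZMod 3)) = Nat.card (Fin g → Fin g → ZMod 3) := rfl
  rw [h2, Nat.card_fun, Nat.card_fun, Nat.card_zmod, Nat.card_eq_fintype_card, Fintype.card_fin,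
    ← pow_mul, sq]

end Pool.Agent.Helper37.Nm
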